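import Pool.Agent.Helper20.K5.Draw

/-! A lower bound for the maximum number of edges of a 5-planar graph. -/

namespace Pool.Agent.Results.MP_8a42c3_co.FiveCrossings

open Pool.Agent.Helper20.K5

/-- For every `n`, some 5-planar (simple) graph with `n` vertices has at least `6.3 n - 624`
edges. -/
theorem result (n : ℕ) : (63 / 10 : ℝ) * n - 624 ≤ maxEdges 5 n := lower n

end Pool.Agent.Results.MP_8a42c3_co.FiveCrossings
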